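import Mathlib

/-!
# Neighbourhoods for extensions of nonarchimedean groups by locally compact groups
-/

set_option autoImplicit false
set_option linter.unusedSectionVars false

namespace Pool.Agent.V8H36.TX

open Set Filter Topology

/-- three factors near the identity -/
theorem eventually3 {G : Type} [TopologicalSpace G] {a : G} {Q : G × G × G → Prop}
    (h : ∀ᶠ x in 𝓝 ((a, a, a) : G × G × G), Q x) :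
    ∃ O ∈ 𝓝 a, ∀ x ∈ O, ∀ y ∈ O, ∀ z ∈ O, Q (x, y, z) := by
  rw [nhds_prod_eq, nhds_prod_eq] at h
  obtain ⟨t₁, h₁, t₂, h₂, h12⟩ := Filter.mem_prod_iff.1 h
  obtain ⟨t₃, h₃, t₄, h₄, h34⟩ := Filter.mem_prod_iff.1 h₂
  refine ⟨t₁ ∩ (t₃ ∩ t₄), Filter.inter_mem h₁ (Filter.inter_mem h₃ h₄), ?_⟩
  intro x hx y hy z hz
  exact h12 ⟨hx.1, h34 ⟨hy.2.1, hz.2.2⟩⟩

section

variable {G W : Type} [TopologicalSpace G] [Group G] [IsTopologicalGroup G]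
    [T2Space G] [Group W] (q : G →* W)

/-- small symmetric compact neighbourhoods in the kernel -/
theorem small_compact (hN : LocallyCompactSpace q.ker) {O : Set G} (hO : O ∈ 𝓝 (1 : G)) :
    ∃ K D : Set G, IsCompact K ∧ K ⊆ q.ker ∧ K ⊆ O ∧ (∀ k ∈ K, k⁻¹ ∈ K) ∧ IsOpen D ∧
      (1 : G) ∈ D ∧ D ∩ q.ker ⊆ K := by
  have h1 : (Subtype.val : q.ker → G) ⁻¹' O ∈ 𝓝 (1 : q.ker) :=
    continuous_subtype_val.continuousAt.preimage_mem_nhds hO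
  obtain ⟨s, hs, hsO, hsc⟩ := local_compact_nhds h1
  obtain ⟨t, hts, hto, h1t⟩ := mem_nhds_iff.1 hs
  obtain ⟨D, hD, hDt⟩ := isOpen_induced_iff.1 hto
  let K₀ : Set G := Subtype.val '' s
  have hK₀ : IsCompact K₀ := hsc.image continuous_subtype_val
  have hD1 : (1 : G) ∈ D := by
    have : (1 : q.ker) ∈ (Subtype.val : q.ker → G) ⁻¹' D := by
      rw [hDt]
      exact h1t
    exact this
  have hDK : D ∩ q.ker ⊆ K₀ := by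
    rintro x ⟨hx, hxk⟩
    refine ⟨⟨x, hxk⟩, ?_, rfl⟩
    apply hts
    rw [← hDt]
    exact hx
  refine ⟨K₀ ∩ K₀⁻¹, D ∩ D⁻¹, hK₀.inter hK₀.inv, ?_, ?_, ?_, hD.inter hD.inv, ⟨hD1, ?_⟩, ?_⟩
  · rintro x ⟨⟨y, hy, rfl⟩, -⟩
    exact y.2
  · rintro x ⟨⟨y, hy, rfl⟩, -⟩
    exact hsO hy
  · rintro k ⟨h1, h2⟩
    refine ⟨h2, ?_⟩
    rw [Set.mem_inv, inv_inv]
    exact h1
  · rw [Set.mem_inv, inv_one]
    exact hD1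
  · rintro x ⟨⟨hx1, hx2⟩, hxk⟩
    exact ⟨hDK ⟨hx1, hxk⟩, hDK ⟨hx2, Subgroup.inv_mem _ hxk⟩⟩

/-- a larger compact set in the kernel -/
theorem larger_compact (hN : LocallyCompactSpace q.ker) {C : Set G} (hC : IsCompact C)
    (hCk : C ⊆ q.ker) : ∃ C' D : Set G, IsCompact C' ∧ C' ⊆ q.ker ∧ IsOpen D ∧ C ⊆ D ∧
      D ∩ q.ker ⊆ C' := by
  have hC2 : IsCompact ((Subtype.val : q.ker → G) ⁻¹' C) := by
    rw [Subtype.isCompact_iff]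
    have e : (Subtype.val : q.ker → G) '' (Subtype.val ⁻¹' C) = C := by
      ext x
      constructor
      · rintro ⟨y, hy, rfl⟩
        exact hy
      · intro hx
        exact ⟨⟨x, hCk hx⟩, hx, rfl⟩
    rw [e]
    exact hC
  obtain ⟨K, hK, hCK⟩ := exists_compact_superset hC2
  obtain ⟨D, hD, hDt⟩ := isOpen_induced_iff.1 (isOpen_interior (s := K))
  refine ⟨Subtype.val '' K, D, hK.image continuous_subtype_val, ?_, hD, ?_, ?_⟩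
  · rintro x ⟨y, -, rfl⟩
    exact y.2
  · intro x hx
    have h1 : (⟨x, hCk hx⟩ : q.ker) ∈ interior K := hCK hx
    rw [← hDt] at h1
    exact h1
  · rintro x ⟨hx, hxk⟩
    refine ⟨⟨x, hxk⟩, ?_, rfl⟩
    apply interior_subset
    rw [← hDt]
    exact hx

end

/-- T3 -/
theorem exists_nbhds {G W : Type} [TopologicalSpace G] [Group G] [IsTopologicalGroup G]
    [T2Space G] [TopologicalSpace W] [Group W] [NonarchimedeanGroup W] [T2Space W] (q : G →* W)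
    (hq : Continuous q) (hqo : IsOpenMap q) (hN : LocallyCompactSpace q.ker) :
    ∃ U C C' U₀ : Set G, IsCompact U ∧ IsCompact C ∧ IsCompact C' ∧ U ⊆ q.ker ∧ C ⊆ q.ker ∧
      C' ⊆ q.ker ∧ IsOpen U₀ ∧ (1 : G) ∈ U₀ ∧ U₀ ∩ q.ker ⊆ U ∧ (∀ u ∈ U, u⁻¹ ∈ U) ∧
      (∀ c ∈ C, c⁻¹ ∈ C) ∧ (∀ u₁ ∈ U, ∀ u₂ ∈ U, ∀ u₃ ∈ U, u₁ * u₂ * u₃ ∈ C) ∧
      ∀ O ∈ 𝓝 (1 : G), ∃ (P : Set G) (V : Subgroup W), IsOpen P ∧ (1 : G) ∈ P ∧ P ⊆ O ∧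
        (∀ p ∈ P, p⁻¹ ∈ P) ∧ IsOpen (V : Set W) ∧ q '' P = V ∧
        (∀ u₁ ∈ U, ∀ u₂ ∈ U, ∀ u₃ ∈ U, ∀ p ∈ P, ∀ s ∈ q.ker, ∀ s' ∈ q.ker,
          (∃ p₁ ∈ P, ∃ p₂ ∈ P, ∃ p₃ ∈ P, s = p₁ * p₂ * p₃) →
          (∃ p₁ ∈ P, ∃ p₂ ∈ P, ∃ p₃ ∈ P, s' = p₁ * p₂ * p₃) →
          u₁ * s * (p * u₂ * p⁻¹) * s' * u₃ ∈ C) ∧
        (∀ p ∈ P, ∀ m ∈ C, p⁻¹ * m * p ∈ C') ∧
        ∀ p ∈ P, ∀ u ∈ U₀ ∩ q.ker, p * u * p⁻¹ ∈ U := by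
  have hconj : ∀ (p u : G), u ∈ q.ker → p * u * p⁻¹ ∈ q.ker := fun p u hu =>
    (inferInstance : q.ker.Normal).conj_mem u hu p
  -- C
  obtain ⟨C, Ct, hC, hCk, -, hCs, hCt, h1Ct, hCtC⟩ := small_compact q hN (O := univ) univ_mem
  -- U
  have hev : ∀ᶠ x in 𝓝 ((1, 1, 1) : G × G × G), x.1 * x.2.1 * x.2.2 ∈ Ct := by
    have hc : Continuous (fun x : G × G × G => x.1 * x.2.1 * x.2.2) := by fun_prop
    have h1 := (hCt.preimage hc).mem_nhds (x := ((1, 1, 1) : G × G × G)) (by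
      show (1 : G) * 1 * 1 ∈ Ct
      rw [mul_one, mul_one]
      exact h1Ct)
    exact h1
  obtain ⟨OU, hOU, hOU3⟩ := eventually3 hev
  obtain ⟨U, E, hU, hUk, hUO, hUs, hE, h1E, hEU⟩ := small_compact q hN hOU
  have hUUU : ∀ u₁ ∈ U, ∀ u₂ ∈ U, ∀ u₃ ∈ U, u₁ * u₂ * u₃ ∈ Ct := fun u₁ h₁ u₂ h₂ u₃ h₃ =>
    hOU3 u₁ (hUO h₁) u₂ (hUO h₂) u₃ (hUO h₃)
  -- U₀
  obtain ⟨U₁, U₀, hU₁, hU₁k, hU₁E, -, hU₀, h1U₀, hU₀U₁⟩ :=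
    small_compact q hN (hE.mem_nhds h1E)
  -- C'
  obtain ⟨C', D', hC', hC'k, hD', hCD', hD'C'⟩ := larger_compact q hN hC hCk
  refine ⟨U, C, C', U₀, hU, hC, hC', hUk, hCk, hC'k, hU₀, h1U₀, ?_, hUs, hCs, ?_, ?_⟩
  · intro x hx
    exact hEU ⟨hU₁E (hU₀U₁ hx), hx.2⟩
  · intro u₁ h₁ u₂ h₂ u₃ h₃
    exact hCtC ⟨hUUU u₁ h₁ u₂ h₂ u₃ h₃,
      Subgroup.mul_mem _ (Subgroup.mul_mem _ (hUk h₁) (hUk h₂)) (hUk h₃)⟩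
  intro O hO
  -- (a)
  have ha : ∀ᶠ x in 𝓝 ((1, 1, 1) : G × G × G), ∀ y ∈ U ×ˢ (U ×ˢ U),
      y.1 * x.1 * (x.2.1 * y.2.1 * x.2.1⁻¹) * x.2.2 * y.2.2 ∈ Ct := by
    refine (hU.prod (hU.prod hU)).eventually_forall_of_forall_eventually ?_
    rintro ⟨u₁, u₂, u₃⟩ ⟨h₁, h₂, h₃⟩
    have hc : Continuous (fun z : (G × G × G) × (G × G × G) =>
        z.2.1 * z.1.1 * (z.1.2.1 * z.2.2.1 * z.1.2.1⁻¹) * z.1.2.2 * z.2.2.2) := by fun_prop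
    have h1 := (hCt.preimage hc).mem_nhds (x := (((1, 1, 1), (u₁, u₂, u₃)) :
        (G × G × G) × (G × G × G))) (by
      show u₁ * 1 * (1 * u₂ * 1⁻¹) * 1 * u₃ ∈ Ct
      rw [mul_one, one_mul, inv_one, mul_one, mul_one]
      exact hUUU u₁ h₁ u₂ h₂ u₃ h₃)
    exact h1
  obtain ⟨O₂, hO₂, hO₂a⟩ := eventually3 ha
  have hb3 : ∀ᶠ x in 𝓝 ((1, 1, 1) : G × G × G), x.1 * x.2.1 * x.2.2 ∈ O₂ := by
    have hc : Continuous (fun x : G × G × G => x.1 * x.2.1 * x.2.2) := by fun_prop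
    have h1 : O₂ ∈ 𝓝 ((fun x : G × G × G => x.1 * x.2.1 * x.2.2) (1, 1, 1)) := by
      show O₂ ∈ 𝓝 ((1 : G) * 1 * 1)
      rw [mul_one, mul_one]
      exact hO₂
    exact hc.continuousAt.preimage_mem_nhds h1
  obtain ⟨O₁, hO₁, hO₁3⟩ := eventually3 hb3
  -- (b)
  have hb : ∀ᶠ p in 𝓝 (1 : G), ∀ m ∈ C, p⁻¹ * m * p ∈ D' := by
    refine hC.eventually_forall_of_forall_eventually ?_
    intro m hm
    have hc : Continuous (fun z : G × G => z.1⁻¹ * z.2 * z.1) := by fun_prop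
    have h1 := (hD'.preimage hc).mem_nhds (x := ((1, m) : G × G)) (by
      show (1 : G)⁻¹ * m * 1 ∈ D'
      rw [mul_one, inv_one, one_mul]
      exact hCD' hm)
    exact h1
  -- (c)
  have hcc : ∀ᶠ p in 𝓝 (1 : G), ∀ u ∈ U₁, p * u * p⁻¹ ∈ E := by
    refine hU₁.eventually_forall_of_forall_eventually ?_
    intro u hu
    have hc : Continuous (fun z : G × G => z.1 * z.2 * z.1⁻¹) := by fun_prop
    have h1 := (hE.preimage hc).mem_nhds (x := ((1, u) : G × G)) (by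
      show (1 : G) * u * 1⁻¹ ∈ E
      rw [one_mul, inv_one, mul_one]
      exact hU₁E hu)
    exact h1
  have hO₃ : O ∩ (O₁ ∩ (O₂ ∩ ({p | ∀ m ∈ C, p⁻¹ * m * p ∈ D'} ∩
      {p | ∀ u ∈ U₁, p * u * p⁻¹ ∈ E}))) ∈ 𝓝 (1 : G) :=
    inter_mem hO (inter_mem hO₁ (inter_mem hO₂ (inter_mem hb hcc)))
  obtain ⟨O₄, hO₄s, hO₄, h1O₄⟩ := mem_nhds_iff.1 hO₃
  let O' : Set G := O₄ ∩ O₄⁻¹
  have hO' : IsOpen O' := hO₄.inter hO₄.inv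
  have h1O' : (1 : G) ∈ O' := ⟨h1O₄, by rw [Set.mem_inv, inv_one]; exact h1O₄⟩
  have hsymm : ∀ p ∈ O', p⁻¹ ∈ O' := by
    rintro p ⟨h1, h2⟩
    refine ⟨h2, ?_⟩
    rw [Set.mem_inv, inv_inv]
    exact h1
  have himg : q '' O' ∈ 𝓝 (1 : W) :=
    (hqo O' hO').mem_nhds ⟨1, h1O', map_one q⟩
  obtain ⟨V, hV⟩ := NonarchimedeanGroup.is_nonarchimedean _ himg
  refine ⟨O' ∩ q ⁻¹' (V : Set W), (V : Subgroup W), hO'.inter (V.isOpen.preimage hq),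
    ⟨h1O', ?_⟩, ?_, ?_, V.isOpen, ?_, ?_, ?_, ?_⟩
  · show q 1 ∈ (V : Set W)
    rw [map_one]
    exact (V : Subgroup W).one_mem
  · rintro x ⟨⟨h1, -⟩, -⟩
    exact (hO₄s h1).1
  · rintro p ⟨h1, h2⟩
    refine ⟨hsymm p h1, ?_⟩
    show q p⁻¹ ∈ (V : Set W)
    rw [map_inv]
    exact (V : Subgroup W).inv_mem h2
  · apply Set.Subset.antisymm
    · rintro _ ⟨x, ⟨-, h2⟩, rfl⟩
      exact h2
    · intro w hw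
      obtain ⟨x, hx, rfl⟩ := hV hw
      exact ⟨x, ⟨hx, hw⟩, rfl⟩
  · rintro u₁ h₁ u₂ h₂ u₃ h₃ p ⟨⟨hp, -⟩, -⟩ s hs s' hs' ⟨p₁, ⟨⟨hp₁, -⟩, -⟩, p₂, ⟨⟨hp₂, -⟩, -⟩,
      p₃, ⟨⟨hp₃, -⟩, -⟩, rfl⟩ ⟨r₁, ⟨⟨hr₁, -⟩, -⟩, r₂, ⟨⟨hr₂, -⟩, -⟩, r₃, ⟨⟨hr₃, -⟩, -⟩, rfl⟩
    have e1 : p₁ * p₂ * p₃ ∈ O₂ := hO₁3 p₁ (hO₄s hp₁).2.1 p₂ (hO₄s hp₂).2.1 p₃ (hO₄s hp₃).2.1
    have e2 : r₁ * r₂ * r₃ ∈ O₂ := hO₁3 r₁ (hO₄s hr₁).2.1 r₂ (hO₄s hr₂).2.1 r₃ (hO₄s hr₃).2.1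
    have e3 := hO₂a _ e1 p (hO₄s hp).2.2.1 _ e2 (u₁, u₂, u₃) ⟨h₁, h₂, h₃⟩
    refine hCtC ⟨e3, ?_⟩
    exact Subgroup.mul_mem _ (Subgroup.mul_mem _ (Subgroup.mul_mem _ (Subgroup.mul_mem _ (hUk h₁)
      hs) (hconj p u₂ (hUk h₂))) hs') (hUk h₃)
  · rintro p ⟨⟨hp, -⟩, -⟩ m hm
    refine hD'C' ⟨(hO₄s hp).2.2.2.1 m hm, ?_⟩
    have := hconj p⁻¹ m (hCk hm)
    rwa [inv_inv] at this
  · rintro p ⟨⟨hp, -⟩, -⟩ u hu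
    exact hEU ⟨(hO₄s hp).2.2.2.2 u (hU₀U₁ hu), hconj p u hu.2⟩

end Pool.Agent.V8H36.TX
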